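import Pool.Agent.K3h21.MK.Piece

/-!
# Almost primes `m³ + k` for all but few `k`

For all but `K^(1-c)` of the integers `|k| ≤ K` a lower bound of the expected order of magnitude for the number of
`m ≤ x` with `m³ + k` a product of at most two primes holds for ALL `x` with `K^(1/11 + ε) ≤ x ≤ K^(11/25 - ε)`, and
with at most three primes for ALL `x` with `K^ε ≤ x ≤ K^(23/27 - ε)`. For `x = K^(1/3)` there are at most `K^(25/33 + ε)`
exceptional `k` for `P₂` and at most `K^(2/3 + ε)` for `P₃`.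
-/

set_option autoImplicit false

open Finset Filter

namespace Pool.Agent.Results.MP_4d57ea_nt.AlmostPrimeFewExceptions

open Classical in
/-- The number of `1 ≤ m ≤ x` for which `|m³ + k| ≥ 2` has at most `r` prime factors, counted with multiplicity, all of
them at least `w`. -/
noncomputable def almostPrimes (r : ℕ) (k : ℤ) (x : ℕ) (w : ℝ) : ℕ :=
  ((Icc 1 x).filter (fun m : ℕ => 2 ≤ ((m : ℤ) ^ 3 + k).natAbs ∧
    ((m : ℤ) ^ 3 + k).natAbs.primeFactorsList.length ≤ r ∧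
    ∀ p : ℕ, p.Prime → (p : ℤ) ∣ (m : ℤ) ^ 3 + k → w ≤ p)).card

open Classical in
/-- The number of `1 ≤ m ≤ x` counted by `almostPrimes` for which `m³ + k` is positive. -/
noncomputable def positiveAlmostPrimes (r : ℕ) (k : ℤ) (x : ℕ) (w : ℝ) : ℕ :=
  ((Icc 1 x).filter (fun m : ℕ => 0 < (m : ℤ) ^ 3 + k ∧ 2 ≤ ((m : ℤ) ^ 3 + k).natAbs ∧
    ((m : ℤ) ^ 3 + k).natAbs.primeFactorsList.length ≤ r ∧
    ∀ p : ℕ, p.Prime → (p : ℤ) ∣ (m : ℤ) ^ 3 + k → w ≤ p)).card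

/-- The product over the primes `p ≤ x` of `1 - ρ(p) / p`, where `ρ(p)` is the number of residues `m` modulo `p` with
`p ∣ m³ + k`. -/
noncomputable def density (k : ℤ) (x : ℕ) : ℝ :=
  ∏ p ∈ (Icc 1 x).filter Nat.Prime,
    (1 - (((range p).filter (fun m : ℕ => (p : ℤ) ∣ (m : ℤ) ^ 3 + k)).card : ℝ) / p)

theorem density_eq (k : ℤ) (x : ℕ) :
    density k x = Pool.Agent.Y882.PX.loc (Polynomial.X ^ 3) k x := by
  unfold density Pool.Agent.Y882.PX.loc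
  refine prod_congr rfl fun p _ => ?_
  rw [Pool.Agent.K3h21.MK.ro3]

open Classical in
theorem pos_count (r : ℕ) (k : ℤ) (x K : ℕ) (w : ℝ) (hk : k ∈ Icc (-(K : ℤ)) (K : ℤ)) :
    almostPrimes r k x w ≤ positiveAlmostPrimes r k x w + (if 0 < k then 0 else ⌊(K : ℝ) ^ ((1 : ℝ) / 3)⌋₊) := by
  unfold almostPrimes positiveAlmostPrimes
  split_ifs with h
  · rw [add_zero]
    apply card_le_card
    intro m hm
    rw [mem_filter] at hm ⊢
    refine ⟨hm.1, ?_, hm.2⟩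
    positivity
  · have hsub : ((Icc 1 x).filter (fun m : ℕ => 2 ≤ ((m : ℤ) ^ 3 + k).natAbs ∧
        ((m : ℤ) ^ 3 + k).natAbs.primeFactorsList.length ≤ r ∧
        ∀ p : ℕ, p.Prime → (p : ℤ) ∣ (m : ℤ) ^ 3 + k → w ≤ p)) ⊆
        ((Icc 1 x).filter (fun m : ℕ => 0 < (m : ℤ) ^ 3 + k ∧ 2 ≤ ((m : ℤ) ^ 3 + k).natAbs ∧
        ((m : ℤ) ^ 3 + k).natAbs.primeFactorsList.length ≤ r ∧
        ∀ p : ℕ, p.Prime → (p : ℤ) ∣ (m : ℤ) ^ 3 + k → w ≤ p)) ∪
        Icc 1 ⌊(K : ℝ) ^ ((1 : ℝ) / 3)⌋₊ := by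
      intro m hm
      rw [mem_filter] at hm
      rw [mem_union, mem_filter]
      by_cases h0 : 0 < (m : ℤ) ^ 3 + k
      · left
        exact ⟨hm.1, h0, hm.2⟩
      · right
        rw [mem_Icc]
        refine ⟨(mem_Icc.1 hm.1).1, Nat.le_floor ?_⟩
        rw [mem_Icc] at hk
        have h1 : (m : ℤ) ^ 3 ≤ K := by linarith [hk.1]
        have h2 : (m : ℝ) ^ 3 ≤ K := by exact_mod_cast h1
        calc (m : ℝ) = ((m : ℝ) ^ 3) ^ ((1 : ℝ) / 3) := by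
              rw [← Real.rpow_natCast, ← Real.rpow_mul (Nat.cast_nonneg m)]
              norm_num
          _ ≤ _ := Real.rpow_le_rpow (by positivity) h2 (by norm_num)
    refine (card_le_card hsub).trans ((card_union_le _ _).trans ?_)
    rw [Nat.card_Icc]
    simp

open Classical in
theorem unif (r : ℕ) (τ ζ υ lam : ℝ) (hζ : 0 < ζ) (h2 : 2 * ζ < τ)
    (h4 : τ ≤ 4 * ζ) (hτ : τ < 1) (hζυ : ζ ≤ υ) (hυτ : υ < τ) (hυ2 : υ ≤ 1 / 2) (hlam : 0 < lam)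
    (hJ0 : ∫ x in ζ..υ, (lam - lam / υ * x) / (τ - x) / x < Real.log (τ / ζ - 1) / τ)
    (hr : 1 / lam + 1 / υ ≤ r + 1) (wt : ℝ) (hwt : wt ≤ ζ) (a b η : ℝ) (ha : 0 < a) (hb : b ≤ 1) (hη : 0 < η)
    (hη3 : a ≤ b → η ≤ 1 / 3) (hηa : η ≤ a) (H1 : ∀ u : ℝ, a ≤ u → u ≤ b → υ * max 1 (3 * u) ≤ 1 - η)
    (H2 : ∀ u : ℝ, a ≤ u → u ≤ b → 2 * τ * max 1 (3 * u) - u ≤ 1 - η) :
    ∃ c δ : ℝ, 0 < c ∧ 0 < δ ∧ ∃ K0 : ℕ, ∀ K : ℕ, K0 ≤ K →
      ∃ Bad ⊆ Icc (-(K : ℤ)) (K : ℤ), (Bad.card : ℝ) ≤ (K : ℝ) ^ (1 - c) ∧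
        ∀ k ∈ Icc (-(K : ℤ)) (K : ℤ), k ∉ Bad → ∀ x : ℕ, (K : ℝ) ^ a ≤ x → (x : ℝ) ≤ (K : ℝ) ^ b →
          δ * x * density k x ≤ almostPrimes r k x ((K : ℝ) ^ wt) ∧
          (0 < k ∨ (K : ℝ) ^ (1 / 3 + η) ≤ x →
            δ * x * density k x ≤ positiveAlmostPrimes r k x ((K : ℝ) ^ wt)) := by
  by_cases hab : a ≤ b
  swap
  · refine ⟨1, 1, one_pos, one_pos, 2, fun K hK => ⟨∅, empty_subset _, ?_, ?_⟩⟩
    · rw [card_empty, Nat.cast_zero]
      positivity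
    · intro k _ _ x hx1 hx2
      exfalso
      push Not at hab
      have hK1 : (1 : ℝ) < K := by exact_mod_cast (by omega : 1 < K)
      have := Real.rpow_lt_rpow_of_exponent_lt hK1 hab
      linarith
  obtain ⟨δ, hδ, K0, H⟩ := Pool.Agent.K3h21.MK.chain r τ ζ υ lam hζ h2 h4 hτ hζυ hυτ hυ2 hlam hJ0 hr a b η
    ha hab hη (hη3 hab) hηa H1 H2
  obtain ⟨c, hc, HL⟩ := Pool.Agent.K3h21.MK.loc3_low
  have ev1 : ∀ᶠ K : ℕ in atTop, (Real.log K) ^ 6 * 2 / (δ * c) ≤ (K : ℝ) ^ η := by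
    have h1 : Tendsto (fun x : ℝ => Real.log x ^ (6 : ℝ) / x ^ η) atTop (nhds 0) := by
      have := isLittleO_log_rpow_rpow_atTop (6 : ℝ) hη
      exact this.tendsto_div_nhds_zero
    have h2 := h1.eventually_le_const (show (0 : ℝ) < δ * c / 2 by positivity)
    have h3 := tendsto_natCast_atTop_atTop.eventually (h2.and (eventually_gt_atTop (0 : ℝ)))
    filter_upwards [h3] with X hX
    obtain ⟨h4, h5⟩ := hX
    have h6 : (0 : ℝ) < (X : ℝ) ^ η := by positivity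
    rw [div_le_div_iff₀ h6 (by positivity)] at h4
    have h7 : Real.log (X : ℝ) ^ (6 : ℝ) = Real.log (X : ℝ) ^ (6 : ℕ) := by
      rw [← Real.rpow_natCast]
      norm_num
    rw [h7] at h4
    rw [div_le_iff₀ (by positivity)]
    linarith
  have ev2 : ∀ᶠ K : ℕ in atTop, (2 : ℝ) ≤ (K : ℝ) ^ a :=
    tendsto_natCast_atTop_atTop.eventually
      ((tendsto_rpow_atTop ha).eventually_ge_atTop _)
  obtain ⟨K1, hK1⟩ := eventually_atTop.1 (ev1.and (ev2.and (eventually_ge_atTop 3)))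
  refine ⟨η / 8, δ / 2, by positivity, by positivity, max K0 K1, fun K hK => ?_⟩
  have h := H K ((le_max_left _ _).trans hK)
  obtain ⟨e1, e2, e3⟩ := hK1 K ((le_max_right _ _).trans hK)
  have hKr : (3 : ℝ) ≤ K := by exact_mod_cast e3
  have hK0 : (0 : ℝ) < K := by linarith
  have hK1r : (1 : ℝ) ≤ K := by linarith
  refine ⟨(Icc (-(K : ℤ)) (K : ℤ)).filter (fun k => ∃ x : ℕ, (K : ℝ) ^ a ≤ x ∧ (x : ℝ) ≤ (K : ℝ) ^ b ∧
        ((Pool.Agent.K3h21.MK.vals r k x ((K : ℝ) ^ ζ)).card : ℝ) <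
          δ * x * Pool.Agent.Y882.PX.loc (Polynomial.X ^ 3) k x), filter_subset _ _, h, ?_⟩
  intro k hk hkB x hx1 hx2
  rw [density_eq]
  have hl := Pool.Agent.K3h21.MK.loc3_nonneg k x
  have hx0 : (2 : ℝ) ≤ x := e2.trans hx1
  have hx0' : 2 ≤ x := by exact_mod_cast hx0
  have hxK : (x : ℝ) ≤ K := by
    calc (x : ℝ) ≤ (K : ℝ) ^ b := hx2
      _ ≤ (K : ℝ) ^ (1 : ℝ) := Real.rpow_le_rpow_of_exponent_le hK1r hb
      _ = K := Real.rpow_one _
  have h3 : δ * x * Pool.Agent.Y882.PX.loc (Polynomial.X ^ 3) k x ≤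
      almostPrimes r k x ((K : ℝ) ^ wt) := by
    by_contra hcon
    push Not at hcon
    apply hkB
    rw [mem_filter]
    refine ⟨hk, x, hx1, hx2, lt_of_le_of_lt ?_ hcon⟩
    have hm := Pool.Agent.K3h21.MK.vals_mono r k x x ((K : ℝ) ^ ζ) ((K : ℝ) ^ wt) le_rfl
      (Real.rpow_le_rpow_of_exponent_le hK1r hwt)
    have hm' := card_le_card hm
    unfold almostPrimes
    unfold Pool.Agent.K3h21.MK.vals at hm'
    unfold Pool.Agent.K3h21.MK.vals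
    exact_mod_cast hm'
  have hxl : 0 ≤ (x : ℝ) * Pool.Agent.Y882.PX.loc (Polynomial.X ^ 3) k x :=
    mul_nonneg (Nat.cast_nonneg _) hl
  refine ⟨?_, ?_⟩
  · have : δ / 2 * x * Pool.Agent.Y882.PX.loc (Polynomial.X ^ 3) k x ≤
        δ * x * Pool.Agent.Y882.PX.loc (Polynomial.X ^ 3) k x := by nlinarith
    linarith
  · intro hor
    have hp := pos_count r k x K ((K : ℝ) ^ wt) hk
    have hp' := (Nat.cast_le (α := ℝ)).2 hp
    push_cast at hp'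
    have key : ((if 0 < k then (0 : ℕ) else ⌊(K : ℝ) ^ ((1 : ℝ) / 3)⌋₊ : ℕ) : ℝ) ≤
        δ / 2 * x * Pool.Agent.Y882.PX.loc (Polynomial.X ^ 3) k x := by
      split_ifs with h0
      · rw [Nat.cast_zero, mul_assoc]
        exact mul_nonneg (by positivity) hxl
      · have h1 : (K : ℝ) ^ (1 / 3 + η) ≤ x := by
          rcases hor with h | h
          · exact absurd h h0
          · exact h
        have h2 := HL k x hx0'
        have hlx : 0 < Real.log x := Real.log_pos (by linarith)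
        have hlxK : Real.log x ≤ Real.log K := Real.log_le_log (by linarith) hxK
        have h3 : c / Real.log K ^ 6 ≤ Pool.Agent.Y882.PX.loc (Polynomial.X ^ 3) k x := by
          refine le_trans ?_ h2
          apply div_le_div_of_nonneg_left hc.le (by positivity)
          exact pow_le_pow_left₀ hlx.le hlxK 6
        have hlK : 0 < Real.log K := by linarith
        have h4 : 1 ≤ δ / 2 * (K : ℝ) ^ η * (c / Real.log K ^ 6) := by
          rw [div_le_iff₀ (by positivity)] at e1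
          have e5 : 1 = (Real.log K) ^ 6 * 2 * (1 / 2 / Real.log K ^ 6) := by
            field_simp
          rw [e5]
          calc (Real.log K) ^ 6 * 2 * (1 / 2 / Real.log K ^ 6) ≤
              (K : ℝ) ^ η * (δ * c) * (1 / 2 / Real.log K ^ 6) :=
                mul_le_mul_of_nonneg_right e1 (by positivity)
            _ = _ := by ring
        have h5 : (⌊(K : ℝ) ^ ((1 : ℝ) / 3)⌋₊ : ℝ) ≤ (K : ℝ) ^ ((1 : ℝ) / 3) :=
          Nat.floor_le (by positivity)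
        calc (⌊(K : ℝ) ^ ((1 : ℝ) / 3)⌋₊ : ℝ) ≤ (K : ℝ) ^ ((1 : ℝ) / 3) * 1 := by linarith
          _ ≤ (K : ℝ) ^ ((1 : ℝ) / 3) * (δ / 2 * (K : ℝ) ^ η * (c / Real.log K ^ 6)) :=
              mul_le_mul_of_nonneg_left h4 (by positivity)
          _ = δ / 2 * (K : ℝ) ^ (1 / 3 + η) * (c / Real.log K ^ 6) := by
              rw [Real.rpow_add hK0]
              ring
          _ ≤ δ / 2 * x * (c / Real.log K ^ 6) := by
              apply mul_le_mul_of_nonneg_right _ (by positivity)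
              exact mul_le_mul_of_nonneg_left h1 (by positivity)
          _ ≤ _ := mul_le_mul_of_nonneg_left h3 (by positivity)
    push_cast at key
    linarith

open Classical in
theorem one_scale (r : ℕ) (τ ζ υ lam : ℝ) (hζ : 0 < ζ) (h2 : 2 * ζ < τ)
    (h4 : τ ≤ 4 * ζ) (hτ : τ < 1) (hζυ : ζ ≤ υ) (hυτ : υ < τ) (hυ2 : υ ≤ 1 / 2) (hlam : 0 < lam)
    (hJ0 : ∫ x in ζ..υ, (lam - lam / υ * x) / (τ - x) / x < Real.log (τ / ζ - 1) / τ)
    (hr : 1 / lam + 1 / υ ≤ r + 1) (wt : ℝ) (hwt : wt ≤ ζ) (E : ℝ) (hE : 2 / 3 ≤ E) (hE1 : 2 * τ - 1 / 3 ≤ E)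
    (ε : ℝ) (hε : 0 < ε) :
    ∃ δ : ℝ, 0 < δ ∧ ∃ K0 : ℕ, ∀ K : ℕ, K0 ≤ K →
      (((Icc (-(K : ℤ)) (K : ℤ)).filter (fun k =>
        (almostPrimes r k ⌊(K : ℝ) ^ (1 / 3 : ℝ)⌋₊ ((K : ℝ) ^ wt) : ℝ) <
          δ * (K : ℝ) ^ (1 / 3 : ℝ) * density k ⌊(K : ℝ) ^ (1 / 3 : ℝ)⌋₊)).card : ℝ) ≤ (K : ℝ) ^ (E + ε) := by
  obtain ⟨s, hs, hs1, hs2⟩ : ∃ s : ℝ, 0 < s ∧ s ≤ ε / 2 ∧ s ≤ 1 / 6 :=
    ⟨min (ε / 2) (1 / 6), lt_min (by linarith) (by norm_num), min_le_left _ _, min_le_right _ _⟩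
  obtain ⟨δ, hδ, K0, H⟩ := Pool.Agent.K3h21.MK.piece r τ ζ υ lam hζ h2 h4 hτ hζυ hυτ hυ2 hlam hJ0 hr
    (1 / 3 - s) (1 / 3) 1 (ε / 2) (by linarith) (by linarith) (by norm_num) (by linarith)
  have ev1 : ∀ᶠ K : ℕ in atTop, (2 : ℝ) ≤ (K : ℝ) ^ s :=
    tendsto_natCast_atTop_atTop.eventually
      ((tendsto_rpow_atTop hs).eventually_ge_atTop _)
  obtain ⟨K1, hK1⟩ := eventually_atTop.1 (ev1.and (eventually_ge_atTop 3))
  refine ⟨δ / 2, by positivity, max K0 K1, fun K hK => ?_⟩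
  have h := H K ((le_max_left _ _).trans hK)
  obtain ⟨e1, e3⟩ := hK1 K ((le_max_right _ _).trans hK)
  have hKr : (3 : ℝ) ≤ K := by exact_mod_cast e3
  have hK0 : (0 : ℝ) < K := by linarith
  have hK1r : (1 : ℝ) ≤ K := by linarith
  obtain ⟨x, hx⟩ : ∃ x : ℕ, x = ⌊(K : ℝ) ^ (1 / 3 : ℝ)⌋₊ := ⟨_, rfl⟩
  have hKt : (1 : ℝ) ≤ (K : ℝ) ^ (1 / 3 : ℝ) := Real.one_le_rpow hK1r (by norm_num)
  have hx1 : (x : ℝ) ≤ (K : ℝ) ^ (1 / 3 : ℝ) := by rw [hx]; exact Nat.floor_le (by positivity)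
  have hx2 : (K : ℝ) ^ (1 / 3 : ℝ) ≤ 2 * x := by
    have h1 : (1 : ℝ) ≤ x := by
      have : 1 ≤ x := by rw [hx]; exact Nat.le_floor (by exact_mod_cast hKt)
      exact_mod_cast this
    have h2 := Nat.lt_floor_add_one ((K : ℝ) ^ (1 / 3 : ℝ))
    rw [← hx] at h2
    linarith
  have hx3 : (K : ℝ) ^ (1 / 3 - s) ≤ x := by
    rw [Real.rpow_sub hK0, div_le_iff₀ (by positivity)]
    nlinarith
  rw [← hx]
  have hmx : max (max (2 / 3) (υ * 1)) (max (2 * τ * 1 - (1 / 3 - s)) (1 - (1 / 3 - s))) ≤ E + s := by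
    refine max_le (max_le (by linarith) (by linarith)) (max_le (by linarith) (by linarith))
  refine le_trans (Nat.cast_le.2 (card_le_card ?_)) (h.trans
    (Real.rpow_le_rpow_of_exponent_le hK1r (by linarith)))
  intro k hk
  rw [mem_filter] at hk ⊢
  refine ⟨hk.1, x, hx3, hx1, ?_⟩
  obtain ⟨_, hk2⟩ := hk
  rw [density_eq] at hk2
  have hl := Pool.Agent.K3h21.MK.loc3_nonneg k x
  have hm := Pool.Agent.K3h21.MK.vals_mono r k x x ((K : ℝ) ^ ζ) ((K : ℝ) ^ wt) le_rfl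
    (Real.rpow_le_rpow_of_exponent_le hK1r hwt)
  have hm' : ((Pool.Agent.K3h21.MK.vals r k x ((K : ℝ) ^ ζ)).card : ℝ) ≤
      almostPrimes r k x ((K : ℝ) ^ wt) := by
    unfold almostPrimes
    unfold Pool.Agent.K3h21.MK.vals at hm
    unfold Pool.Agent.K3h21.MK.vals
    exact_mod_cast card_le_card hm
  refine lt_of_le_of_lt hm' (lt_of_lt_of_le hk2 ?_)
  apply mul_le_mul_of_nonneg_right _ hl
  nlinarith

open Classical in
/-- **Almost primes `m³ + k` for all but few `k`.** -/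
theorem result :
    -- products of at most two primes
    (∀ ε : ℝ, 0 < ε → ∃ c δ : ℝ, 0 < c ∧ 0 < δ ∧ ∃ K0 : ℕ, ∀ K : ℕ, K0 ≤ K →
      ∃ Bad ⊆ Icc (-(K : ℤ)) (K : ℤ), (Bad.card : ℝ) ≤ (K : ℝ) ^ (1 - c) ∧
        ∀ k ∈ Icc (-(K : ℤ)) (K : ℤ), k ∉ Bad →
          ∀ x : ℕ, (K : ℝ) ^ (1 / 11 + ε) ≤ x → (x : ℝ) ≤ (K : ℝ) ^ (11 / 25 - ε) →
            δ * x * density k x ≤ almostPrimes 2 k x ((K : ℝ) ^ (1 / 8 : ℝ)) ∧
            (0 < k ∨ (K : ℝ) ^ (1 / 3 + ε) ≤ x →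
              δ * x * density k x ≤ positiveAlmostPrimes 2 k x ((K : ℝ) ^ (1 / 8 : ℝ)))) ∧
    -- products of at most three primes
    (∀ ε : ℝ, 0 < ε → ∃ c δ : ℝ, 0 < c ∧ 0 < δ ∧ ∃ K0 : ℕ, ∀ K : ℕ, K0 ≤ K →
      ∃ Bad ⊆ Icc (-(K : ℤ)) (K : ℤ), (Bad.card : ℝ) ≤ (K : ℝ) ^ (1 - c) ∧
        ∀ k ∈ Icc (-(K : ℤ)) (K : ℤ), k ∉ Bad →
          ∀ x : ℕ, (K : ℝ) ^ ε ≤ x → (x : ℝ) ≤ (K : ℝ) ^ (23 / 27 - ε) →
            δ * x * density k x ≤ almostPrimes 3 k x ((K : ℝ) ^ (1 / 12 : ℝ)) ∧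
            (0 < k ∨ (K : ℝ) ^ (1 / 3 + ε) ≤ x →
              δ * x * density k x ≤ positiveAlmostPrimes 3 k x ((K : ℝ) ^ (1 / 12 : ℝ)))) ∧
    -- the sizes of the exceptional sets for `x = K ^ (1/3)`
    (∀ ε : ℝ, 0 < ε → ∃ δ : ℝ, 0 < δ ∧ ∃ K0 : ℕ, ∀ K : ℕ, K0 ≤ K →
      (((Icc (-(K : ℤ)) (K : ℤ)).filter (fun k =>
        (almostPrimes 2 k ⌊(K : ℝ) ^ (1 / 3 : ℝ)⌋₊ ((K : ℝ) ^ (1 / 8 : ℝ)) : ℝ) <
          δ * (K : ℝ) ^ (1 / 3 : ℝ) * density k ⌊(K : ℝ) ^ (1 / 3 : ℝ)⌋₊)).card : ℝ) ≤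
      (K : ℝ) ^ (25 / 33 + ε)) ∧
    (∀ ε : ℝ, 0 < ε → ∃ δ : ℝ, 0 < δ ∧ ∃ K0 : ℕ, ∀ K : ℕ, K0 ≤ K →
      (((Icc (-(K : ℤ)) (K : ℤ)).filter (fun k =>
        (almostPrimes 3 k ⌊(K : ℝ) ^ (1 / 3 : ℝ)⌋₊ ((K : ℝ) ^ (1 / 12 : ℝ)) : ℝ) <
          δ * (K : ℝ) ^ (1 / 3 : ℝ) * density k ⌊(K : ℝ) ^ (1 / 3 : ℝ)⌋₊)).card : ℝ) ≤
      (K : ℝ) ^ (2 / 3 + ε)) := by
  have cC := Pool.Agent.Y882.KW.cond_C (6 / 11) (80 / 77) (by norm_num) (by norm_num) (by norm_num)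
  have cA := Pool.Agent.Y882.KW.cond_A (25 / 69) (8 / 9) (by norm_num) (by norm_num) (by norm_num)
  refine ⟨?_, ?_, ?_, ?_⟩
  · intro ε hε
    refine unif 2 (6 / 11) (6 / 11 / 4) (9 / 10 * (6 / 11)) (80 / 77) (by norm_num) (by norm_num) (by norm_num)
      (by norm_num) (by norm_num) (by norm_num) (by norm_num) (by norm_num) cC (by norm_num) (1 / 8)
      (by norm_num) (1 / 11 + ε) (11 / 25 - ε) ε (by linarith) (by linarith) hε (fun h => by linarith)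
      (by linarith) ?_ ?_
    · intro u hu1 hu2
      rcases le_total (3 * u) 1 with h | h
      · rw [max_eq_left h]
        linarith
      · rw [max_eq_right h]
        linarith
    · intro u hu1 hu2
      rcases le_total (3 * u) 1 with h | h
      · rw [max_eq_left h]
        linarith
      · rw [max_eq_right h]
        linarith
  · intro ε hε
    obtain ⟨e, he, he1, he2⟩ : ∃ e : ℝ, 0 < e ∧ e ≤ ε ∧ e ≤ 1 / 3 :=
      ⟨min ε (1 / 3), lt_min hε (by norm_num), min_le_left _ _, min_le_right _ _⟩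
    obtain ⟨c, δ, hc, hδ, K0, H⟩ := unif 3 (25 / 69) (25 / 69 / 4) (24 / 25 * (25 / 69)) (8 / 9) (by norm_num)
      (by norm_num) (by norm_num)
      (by norm_num) (by norm_num) (by norm_num) (by norm_num) (by norm_num) cA (by norm_num) (1 / 12)
      (by norm_num) e (23 / 27 - e) e he (by linarith) he (fun _ => he2) le_rfl (by
        intro u hu1 hu2
        rcases le_total (3 * u) 1 with h | h
        · rw [max_eq_left h]
          linarith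
        · rw [max_eq_right h]
          linarith) (by
        intro u hu1 hu2
        rcases le_total (3 * u) 1 with h | h
        · rw [max_eq_left h]
          linarith
        · rw [max_eq_right h]
          linarith)
    refine ⟨c, δ, hc, hδ, max K0 1, fun K hK => ?_⟩
    obtain ⟨Bad, hB1, hB2, hB3⟩ := H K ((le_max_left _ _).trans hK)
    have hK1 : (1 : ℝ) ≤ K := by exact_mod_cast (le_max_right _ _).trans hK
    refine ⟨Bad, hB1, hB2, fun k hk hkB x hx1 hx2 => ?_⟩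
    obtain ⟨f1, f2⟩ := hB3 k hk hkB x
      ((Real.rpow_le_rpow_of_exponent_le hK1 he1).trans hx1)
      (hx2.trans (Real.rpow_le_rpow_of_exponent_le hK1 (by linarith)))
    refine ⟨f1, fun hor => f2 (hor.imp id fun h =>
      (Real.rpow_le_rpow_of_exponent_le hK1 (by linarith)).trans h)⟩
  · intro ε hε
    exact one_scale 2 (6 / 11) (6 / 11 / 4) (9 / 10 * (6 / 11)) (80 / 77) (by norm_num) (by norm_num)
      (by norm_num)
      (by norm_num) (by norm_num) (by norm_num) (by norm_num) (by norm_num) cC (by norm_num) (1 / 8)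
      (by norm_num) (25 / 33) (by norm_num) (by norm_num) ε hε
  · intro ε hε
    exact one_scale 3 (25 / 69) (25 / 69 / 4) (24 / 25 * (25 / 69)) (8 / 9) (by norm_num) (by norm_num)
      (by norm_num)
      (by norm_num) (by norm_num) (by norm_num) (by norm_num) (by norm_num) cA (by norm_num) (1 / 12)
      (by norm_num) (2 / 3) (by norm_num) (by norm_num) ε hε

end Pool.Agent.Results.MP_4d57ea_nt.AlmostPrimeFewExceptions
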