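import Pool.Agent.K3h21.IR.Main

set_option autoImplicit false

/-!
# Clusters of almost primes `x ^ 3 + k` in narrow progressions, for every `k` which is not a cube
-/

namespace Pool.Agent.Results.MP_4d57ea_nt.Clusters

open Filter Polynomial

/-- `n` is a product of at most `r` primes, counted with multiplicity, all of them at least `w`. -/
def AlmostPrime (r : ℕ) (w : ℝ) (n : ℤ) : Prop :=
  0 < n ∧ n.natAbs.primeFactorsList.length ≤ r ∧ ∀ q : ℕ, q.Prime → (q : ℤ) ∣ n → w ≤ q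

/-- **A theorem of Maynard-Tao type for `x ^ 3 + k`.** Let `k` be an integer which is not a cube, and let `g ≠ 0` be any
polynomial with integer coefficients such that no prime divides all the products `(x ^ 3 + k) g(x)`, `x ∈ ℤ` (for instance
`g = 1`). For every `m` there is `K` such that for every finite set `S` of at least `K` natural numbers there are `r` and
`δ > 0` such that for every `l` there is an exponent `B` such that for all large `N` there are a subset `H` of `S` with `m`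
elements and an arithmetic progression `n, n + d, ..., n + (l - 1) d` in `(N, N + N ^ (5 / 6)]` with difference
`1 ≤ d ≤ (log N) ^ B` such that for all its terms `x` and all `h ∈ H`: the number `(x + h) ^ 3 + k` is a product of at
most four primes, all of them at least `N ^ (81 / 400)`, and `g(x + h)` has at most `r` prime factors, all of them at least
`N ^ δ`. -/
theorem result (k : ℤ) (hk : ¬ ∃ a : ℤ, k = a ^ 3) (g : ℤ[X]) (hg : g ≠ 0)
    (hadm : ∀ p : ℕ, p.Prime → ∃ n : ℤ, ¬ (p : ℤ) ∣ (n ^ 3 + k) * g.eval n) (m : ℕ) :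
    ∃ K : ℕ, ∀ S : Finset ℕ, K ≤ S.card → ∃ (r : ℕ) (δ : ℝ), 0 < δ ∧ ∀ l : ℕ,
      ∃ B : ℕ, ∀ᶠ N : ℕ in atTop,
      ∃ H ⊆ S, H.card = m ∧ ∃ n d : ℕ, 1 ≤ d ∧ (d : ℝ) ≤ Real.log N ^ B ∧
        ∀ j < l, N < n + j * d ∧ ((n + j * d : ℕ) : ℝ) ≤ N + (N : ℝ) ^ (5 / 6 : ℝ) ∧
          ∀ h ∈ H, AlmostPrime 4 ((N : ℝ) ^ (81 / 400 : ℝ)) (((n + j * d + h : ℕ) : ℤ) ^ 3 + k) ∧
            (g.eval ((n + j * d + h : ℕ) : ℤ)).natAbs.primeFactorsList.length ≤ r ∧
            ∀ p : ℕ, p.Prime → (p : ℤ) ∣ g.eval ((n + j * d + h : ℕ) : ℤ) → (N : ℝ) ^ δ ≤ p := by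
  have hm : (X ^ 3 + C k : ℤ[X]).Monic := monic_X_pow_add_C k (by norm_num)
  have hdeg : (X ^ 3 + C k : ℤ[X]).natDegree = 3 := natDegree_X_pow_add_C
  have hev : ∀ n : ℤ, (X ^ 3 + C k : ℤ[X]).eval n = n ^ 3 + k := fun n => by
    simp only [eval_add, eval_pow, eval_X, eval_C]
  have hirr : Irreducible (X ^ 3 + C k : ℤ[X]) := by
    rw [Monic.irreducible_iff_roots_eq_zero_of_degree_le_three hm (by omega) (by omega)]
    rw [Multiset.eq_zero_iff_forall_notMem]
    intro x hx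
    rw [mem_roots hm.ne_zero, IsRoot.def, hev] at hx
    exact hk ⟨-x, by linear_combination hx⟩
  obtain ⟨K, hK⟩ := Pool.Agent.K3h21.IR.irr_sys (X ^ 3 + C k) hirr (by omega) g hg
    (fun p hp => by
      obtain ⟨n, hn⟩ := hadm p hp
      exact ⟨n, by rwa [hev]⟩) 4 (81 / 100) (5 / 6) (by norm_num) (by norm_num) (by norm_num)
    (by rw [hdeg]; norm_num) m
  refine ⟨K, fun S hS => ?_⟩
  obtain ⟨r, δ, hδ, hl⟩ := hK S hS
  refine ⟨r, δ, hδ, fun l => ?_⟩
  obtain ⟨B, hN⟩ := hl l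
  refine ⟨B, ?_⟩
  filter_upwards [hN, eventually_ge_atTop (k.natAbs + 1)] with N hN hNk
  obtain ⟨H, hH, hHc, n, d, h1, h2, h3⟩ := hN
  refine ⟨H, hH, hHc, n, d, h1, h2, fun j hj => ?_⟩
  obtain ⟨h4, h5, h6⟩ := h3 j hj
  refine ⟨h4, h5, fun h hh => ?_⟩
  obtain ⟨g1, g2, g3, g4⟩ := h6 h hh
  rw [hev] at g1
  rw [show (81 / 100 : ℝ) / 4 = 81 / 400 by norm_num] at g2
  refine ⟨⟨?_, g1, fun p hp hpd => g2 p hp (by rw [hev]; exact hpd)⟩, g3, g4⟩
  have h7 : N ≤ n + j * d + h := by omega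
  have h8 : n + j * d + h ≤ (n + j * d + h) ^ 3 := Nat.le_self_pow (by norm_num) _
  have h9 : k.natAbs + 1 ≤ (n + j * d + h) ^ 3 := hNk.trans (h7.trans h8)
  have h10 : ((k.natAbs : ℤ) + 1) ≤ ((n + j * d + h : ℕ) : ℤ) ^ 3 := by exact_mod_cast h9
  have h11 : -k ≤ (k.natAbs : ℤ) := by
    rw [Int.natCast_natAbs]
    exact neg_le_abs k
  linarith

end Pool.Agent.Results.MP_4d57ea_nt.Clusters
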