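import Pool.Agent.K3h21.LW.Poly2

set_option autoImplicit false

/-!
# Clusters of almost primes `y ^ 3 + k` in short windows

All windows `(x, x + H]`, `x ≤ X`, `H ≤ √X`, with at most `(X (log X) ^ A + X ^ η) / H + X ^ σ` exceptions contain many
clusters of `m` numbers `y` for which `y ^ 3 + k` has at most `r` prime factors, all large: `r = 7` with `η = 1`, so that
windows of length a power of the logarithm are allowed, `r = 6` with `η = 1.065` and `r = 5` with `η = 1.283`.
-/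

namespace Pool.Agent.Results.MP_4d57ea_nt.ClustersInShortWindows

open Polynomial

/-- `n` is positive and has at most `r` prime factors, counted with multiplicity, all of them at least `w`. -/
def AlmostPrime (r : ℕ) (w : ℝ) (n : ℤ) : Prop :=
  0 < n ∧ n.natAbs.primeFactorsList.length ≤ r ∧ ∀ q : ℕ, q.Prime → (q : ℤ) ∣ n → w ≤ q

open Classical in
/-- The integers `n` with `x < n ≤ x + H` such that for at least `m` of the `h ∈ S` the number `y = n + h` satisfies
`y ≤ x + H` and `AlmostPrime r w (y ^ 3 + k)`. -/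
noncomputable def clusters (k : ℤ) (S : Finset ℕ) (m r : ℕ) (w : ℝ) (x H : ℕ) : Finset ℕ :=
  (Finset.Ioc x (x + H)).filter (fun n =>
    m ≤ (S.filter (fun h => n + h ≤ x + H ∧ AlmostPrime r w (((n + h : ℕ) : ℤ) ^ 3 + k))).card)

theorem irr (k : ℤ) (hk : ¬ ∃ a : ℤ, k = a ^ 3) : Irreducible (X ^ 3 + C k : ℤ[X]) := by
  have hm : (X ^ 3 + C k : ℤ[X]).Monic := monic_X_pow_add_C k (by norm_num)
  have hdeg : (X ^ 3 + C k : ℤ[X]).natDegree = 3 := natDegree_X_pow_add_C
  rw [Monic.irreducible_iff_roots_eq_zero_of_degree_le_three hm (by omega) (by omega)]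
  rw [Multiset.eq_zero_iff_forall_notMem]
  intro x hx
  rw [mem_roots hm.ne_zero, IsRoot.def] at hx
  simp only [eval_add, eval_pow, eval_X, eval_C] at hx
  exact hk ⟨-x, by linear_combination hx⟩

open Classical in
/-- **Clusters of almost primes `y ^ 3 + k` in short windows.** Let `k` be an integer which is not a cube, `0 < τ < 1`,
`75 < (24 r - 3) τ`, `η > 2 τ`, `σ > τ`, `σ > 1 - τ / 4`. For every `m` there is `K` such that for every finite set `S` of at
least `K` natural numbers there are `A` and `X₀` such that for all `X ≥ X₀` and all `1 ≤ H ≤ √X` all `x ≤ X` with at most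
`(X (log X) ^ A + X ^ η) / H + X ^ σ` exceptions satisfy: `(x, x + H]` contains at least `H / (log X) ^ A` integers `n` such
that for at least `m` of the `h ∈ S` the number `y = n + h` is at most `x + H` and `y ^ 3 + k` is positive with at most `r`
prime factors, all at least `X ^ (τ / 4)`. -/
theorem result (k : ℤ) (hk : ¬ ∃ a : ℤ, k = a ^ 3) (r : ℕ) (τ η σ : ℝ) (hτ0 : 0 < τ) (hτ1 : τ < 1)
    (hr : 75 < (24 * (r : ℝ) - 3) * τ) (hη : 2 * τ < η) (hσ1 : τ < σ) (hσ2 : 1 - τ / 4 < σ) (m : ℕ) :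
    ∃ K : ℕ, ∀ S : Finset ℕ, K ≤ S.card → ∃ A X₀ : ℕ, ∀ X : ℕ, X₀ ≤ X → ∀ H : ℕ, 1 ≤ H → H ^ 2 ≤ X →
      (((Finset.range (X + 1)).filter (fun x : ℕ => ((clusters k S m r ((X : ℝ) ^ (τ / 4)) x H).card : ℝ) <
        H / Real.log X ^ A)).card : ℝ) ≤ ((X : ℝ) * Real.log X ^ A + (X : ℝ) ^ η) / H + (X : ℝ) ^ σ := by
  have hdeg : (Polynomial.X ^ 3 + C k : ℤ[X]).natDegree = 3 := natDegree_X_pow_add_C
  have hev : ∀ n : ℤ, (Polynomial.X ^ 3 + C k : ℤ[X]).eval n = n ^ 3 + k := fun n => by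
    simp only [eval_add, eval_pow, eval_X, eval_C]
  set σ' : ℝ := (max (1 - τ / 4) τ + σ) / 2 with hσ'
  have hm1 : 1 - τ / 4 ≤ max (1 - τ / 4) τ := le_max_left _ _
  have hm2 : τ ≤ max (1 - τ / 4) τ := le_max_right _ _
  have hm3 : max (1 - τ / 4) τ < σ := max_lt hσ2 hσ1
  obtain ⟨K, h1⟩ := Pool.Agent.K3h21.LW.poly2 (Polynomial.X ^ 3 + C k) (irr k hk) (by rw [hdeg]; norm_num)
    (fun p hp => by
      by_contra hcon
      push Not at hcon
      have h0 := hcon 0
      have h1 := hcon 1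
      rw [hev] at h0 h1
      have h2 : (p : ℤ) ∣ 1 := by
        have := dvd_sub h1 h0
        norm_num at this
        exact this
      have := Int.eq_one_of_dvd_one (by positivity) h2
      have := hp.one_lt
      omega) r τ η σ' ((24 * (r : ℝ) - 3) * τ / 25) hτ0 hτ1 hη (by
        rw [hdeg]
        push_cast
        linarith) (by rw [hσ']; linarith) (by rw [hσ']; linarith) (by
        have : (24 * (r : ℝ) - 3) * τ / 25 / (24 / 25 * τ) = r - 1 / 8 := by
          field_simp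
          ring
        rw [this]
        linarith) m
  refine ⟨K, fun S hS => ?_⟩
  obtain ⟨A, h2⟩ := h1 S hS
  have hσ0 : 0 < σ' := by rw [hσ']; linarith
  have v1 : ∀ᶠ X : ℕ in Filter.atTop, ((k.natAbs : ℝ) + 3) ≤ (X : ℝ) ^ σ' :=
    ((tendsto_rpow_atTop hσ0).comp (tendsto_natCast_atTop_atTop (R := ℝ))).eventually_ge_atTop _
  have v2 : ∀ᶠ X : ℕ in Filter.atTop, (2 : ℝ) ≤ (X : ℝ) ^ (σ - σ') :=
    ((tendsto_rpow_atTop (by rw [hσ']; linarith)).comp (tendsto_natCast_atTop_atTop (R := ℝ))).eventually_ge_atTop _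
  obtain ⟨X₀, h3⟩ := Filter.eventually_atTop.1 (h2.and (v1.and (v2.and (Filter.eventually_ge_atTop 1))))
  refine ⟨A, X₀, fun X hX H hH hHX => ?_⟩
  obtain ⟨h4, h5, h6, h7⟩ := h3 X hX
  have h8 := h4 H hH hHX
  have hX0 : (0 : ℝ) < X := by exact_mod_cast h7
  have key : ∀ x : ℕ, k.natAbs + 1 ≤ x → (Pool.Agent.K3h21.LW.cl
      (fun n => (Polynomial.X ^ 3 + C k : ℤ[X]).eval n) S m r
      ((X : ℝ) ^ (τ / 4)) x H).card ≤ (clusters k S m r ((X : ℝ) ^ (τ / 4)) x H).card := by
    intro x hx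
    apply Finset.card_le_card
    intro n hn
    unfold Pool.Agent.K3h21.LW.cl at hn
    unfold clusters
    rw [Finset.mem_filter] at hn ⊢
    obtain ⟨g1, T, g2, g3, g4⟩ := hn
    refine ⟨g1, ?_⟩
    rw [← g3]
    apply Finset.card_le_card
    intro h hh
    rw [Finset.mem_filter]
    obtain ⟨g5, g6, g7⟩ := g4 h hh
    beta_reduce at g6 g7
    rw [hev] at g6 g7
    rw [Finset.mem_Ioc] at g1
    refine ⟨g2 hh, g5, ?_, g6, fun p hp hpd => g7 p hp (Int.natCast_dvd.1 hpd)⟩
    have h8 : n + h ≤ (n + h) ^ 3 := Nat.le_self_pow (by norm_num) _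
    have h9 : k.natAbs + 1 ≤ (n + h) ^ 3 := by omega
    have h10 : ((k.natAbs : ℤ) + 1) ≤ ((n + h : ℕ) : ℤ) ^ 3 := by exact_mod_cast h9
    have h11 : -k ≤ (k.natAbs : ℤ) := by
      rw [Int.natCast_natAbs]
      exact neg_le_abs k
    linarith
  have hsub : (Finset.range (X + 1)).filter (fun x : ℕ => ((clusters k S m r ((X : ℝ) ^ (τ / 4)) x H).card : ℝ) <
        H / Real.log X ^ A) ⊆ (Finset.range (X + 1)).filter (fun x : ℕ => ((Pool.Agent.K3h21.LW.cl
        (fun n => (Polynomial.X ^ 3 + C k : ℤ[X]).eval n) S m r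
        ((X : ℝ) ^ (τ / 4)) x H).card : ℝ) < H / Real.log X ^ A) ∪ Finset.range (k.natAbs + 1) := by
    intro x hx
    rw [Finset.mem_union, Finset.mem_filter, Finset.mem_range, Finset.mem_range]
    rw [Finset.mem_filter, Finset.mem_range] at hx
    by_cases hxk : k.natAbs + 1 ≤ x
    · refine Or.inl ⟨hx.1, lt_of_le_of_lt ?_ hx.2⟩
      exact_mod_cast key x hxk
    · exact Or.inr (by omega)
  have hcard := (Finset.card_le_card hsub).trans (Finset.card_union_le _ _)
  rw [Finset.card_range] at hcard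
  have hcard' : (((Finset.range (X + 1)).filter (fun x : ℕ => ((clusters k S m r ((X : ℝ) ^ (τ / 4)) x H).card : ℝ) <
        H / Real.log X ^ A)).card : ℝ) ≤ ((((Finset.range (X + 1)).filter (fun x : ℕ => ((Pool.Agent.K3h21.LW.cl
        (fun n => (Polynomial.X ^ 3 + C k : ℤ[X]).eval n) S m r
        ((X : ℝ) ^ (τ / 4)) x H).card : ℝ) < H / Real.log X ^ A)).card : ℕ) : ℝ) + (k.natAbs + 1) := by
    exact_mod_cast hcard
  have f1 : (X : ℝ) ^ σ' * 2 ≤ (X : ℝ) ^ σ := by
    have : (X : ℝ) ^ σ' * (X : ℝ) ^ (σ - σ') = (X : ℝ) ^ σ := by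
      rw [← Real.rpow_add hX0]
      congr 1
      ring
    rw [← this]
    exact mul_le_mul_of_nonneg_left h6 (by positivity)
  linarith

end Pool.Agent.Results.MP_4d57ea_nt.ClustersInShortWindows
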