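import Pool.Agent.K3h21.MK.Piece
import Pool.Agent.R482.ST.Star

/-!
# Almost primes `m³ + k` for ALL integers `k` near powers, orbits and other sequences

Let `g_j`, `j = 0, 1, 2, …`, be positive functions on `(a, ∞)`, `a ≥ 0`, such that `g_j(t) / t` is nondecreasing and
such that the sequence `g_j(t)` has exponent of convergence at most `τ` for each `t > a`: for instance
`g_j(t) = t ^ (v_j)` for exponents `v_j ≥ 1` growing faster than `log j` (`τ = 0`; all powers, the powers `t ^ (3 ^ j)`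
of Mills, …), the orbits `g_j(t) = g (g (⋯ g (t)))` of a map `g` with `g(t) > t` and `g(t) / t` nondecreasing (`τ = 0`;
for instance of `t² + c`), and `g_j(t) = b ^ j t`, `j ^ (1 / τ) t`.

Let `(r, s, w)` be `(2, 25/33, 1/8)` or `(3, 2/3, 1/12)`. For all `α > a` outside a set of Hausdorff dimension at most
`(s + τ) / (1 - θ)` there is `δ > 0` such that for each `c`, for all but finitely many `j`, for ALL integers `k`
(positive or negative, cubes included) with `||k| - g_j(α)| ≤ c g_j(α) ^ θ`, the number of the natural numbers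
`m ≤ (2 |k|) ^ (1/3)` for which `|m³ + k|` is a product of at most `r` primes, all of them `≥ |k| ^ w`, is at least
`δ |k| ^ (1/3) D(k)`, where `D(k)` is the product of `1 - ρ(p) / p` over the primes `p ≤ (2 |k|) ^ (1/3)`, the expected
order of magnitude.

Thus for almost every `α > 1` and every integer `k` at distance at most `α ^ (θ j)` from `α ^ j` (or from `- α ^ j`),
`j` large, there are the expected number of `P₂ = m³ + k` if `θ < 8/33`, and of `P₃ = m³ + k` if `θ < 1/3`.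

The input is the bound of `Pool.Agent.K3h21.MK.piece` (helper21's hand-in `AlmostPrimeFewExceptions` of this problem)
for the number of exceptional `k`, which can be near every number; it is combined with the theorem
`Pool.Agent.R482.ST.windows` on thin sets and starshaped maps.
-/

set_option autoImplicit false

open Finset Filter

namespace Pool.Agent.Results.MP_4d57ea_nt.StarshapedValuesOfK

open Pool.Agent.R482.ST

open Classical in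
/-- The number of `1 ≤ m ≤ x` for which `|m³ + k| ≥ 2` has at most `r` prime factors, counted with multiplicity, all of
them at least `w`. -/
noncomputable def almostPrimes (r : ℕ) (k : ℤ) (x : ℕ) (w : ℝ) : ℕ :=
  ((Icc 1 x).filter (fun m : ℕ => 2 ≤ ((m : ℤ) ^ 3 + k).natAbs ∧
    ((m : ℤ) ^ 3 + k).natAbs.primeFactorsList.length ≤ r ∧
    ∀ p : ℕ, p.Prime → (p : ℤ) ∣ (m : ℤ) ^ 3 + k → w ≤ p)).card

/-- The product over the primes `p ≤ x` of `1 - ρ(p) / p`, where `ρ(p)` is the number of residues `m` modulo `p` with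
`p ∣ m³ + k`. -/
noncomputable def density (k : ℤ) (x : ℕ) : ℝ :=
  ∏ p ∈ (Icc 1 x).filter Nat.Prime,
    (1 - (((range p).filter (fun m : ℕ => (p : ℤ) ∣ (m : ℤ) ^ 3 + k)).card : ℝ) / p)

theorem density_eq (k : ℤ) (x : ℕ) :
    density k x = Pool.Agent.Y882.PX.loc (Polynomial.X ^ 3) k x := by
  unfold density Pool.Agent.Y882.PX.loc
  refine prod_congr rfl fun p _ => ?_
  rw [Pool.Agent.K3h21.MK.ro3]

open Classical in
theorem one_scale (r : ℕ) (τ ζ υ lam : ℝ) (hζ : 0 < ζ) (h2 : 2 * ζ < τ)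
    (h4 : τ ≤ 4 * ζ) (hτ : τ < 1) (hζυ : ζ ≤ υ) (hυτ : υ < τ) (hυ2 : υ ≤ 1 / 2) (hlam : 0 < lam)
    (hJ0 : ∫ x in ζ..υ, (lam - lam / υ * x) / (τ - x) / x < Real.log (τ / ζ - 1) / τ)
    (hr : 1 / lam + 1 / υ ≤ r + 1) (wt : ℝ) (hwt : wt ≤ ζ) (E : ℝ) (hE : 2 / 3 ≤ E) (hE1 : 2 * τ - 1 / 3 ≤ E)
    (ε : ℝ) (hε : 0 < ε) :
    ∃ δ : ℝ, 0 < δ ∧ ∃ K0 : ℕ, ∀ K : ℕ, K0 ≤ K →
      (((Icc (-(K : ℤ)) (K : ℤ)).filter (fun k =>
        (almostPrimes r k ⌊(K : ℝ) ^ (1 / 3 : ℝ)⌋₊ ((K : ℝ) ^ wt) : ℝ) <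
          δ * (K : ℝ) ^ (1 / 3 : ℝ) * density k ⌊(K : ℝ) ^ (1 / 3 : ℝ)⌋₊)).card : ℝ) ≤ (K : ℝ) ^ (E + ε) := by
  obtain ⟨s, hs, hs1, hs2⟩ : ∃ s : ℝ, 0 < s ∧ s ≤ ε / 2 ∧ s ≤ 1 / 6 :=
    ⟨min (ε / 2) (1 / 6), lt_min (by linarith) (by norm_num), min_le_left _ _, min_le_right _ _⟩
  obtain ⟨δ, hδ, K0, H⟩ := Pool.Agent.K3h21.MK.piece r τ ζ υ lam hζ h2 h4 hτ hζυ hυτ hυ2 hlam hJ0 hr
    (1 / 3 - s) (1 / 3) 1 (ε / 2) (by linarith) (by linarith) (by norm_num) (by linarith)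
  have ev1 : ∀ᶠ K : ℕ in atTop, (2 : ℝ) ≤ (K : ℝ) ^ s :=
    tendsto_natCast_atTop_atTop.eventually
      ((tendsto_rpow_atTop hs).eventually_ge_atTop _)
  obtain ⟨K1, hK1⟩ := eventually_atTop.1 (ev1.and (eventually_ge_atTop 3))
  refine ⟨δ / 2, by positivity, max K0 K1, fun K hK => ?_⟩
  have h := H K ((le_max_left _ _).trans hK)
  obtain ⟨e1, e3⟩ := hK1 K ((le_max_right _ _).trans hK)
  have hKr : (3 : ℝ) ≤ K := by exact_mod_cast e3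
  have hK0 : (0 : ℝ) < K := by linarith
  have hK1r : (1 : ℝ) ≤ K := by linarith
  obtain ⟨x, hx⟩ : ∃ x : ℕ, x = ⌊(K : ℝ) ^ (1 / 3 : ℝ)⌋₊ := ⟨_, rfl⟩
  have hKt : (1 : ℝ) ≤ (K : ℝ) ^ (1 / 3 : ℝ) := Real.one_le_rpow hK1r (by norm_num)
  have hx1 : (x : ℝ) ≤ (K : ℝ) ^ (1 / 3 : ℝ) := by rw [hx]; exact Nat.floor_le (by positivity)
  have hx2 : (K : ℝ) ^ (1 / 3 : ℝ) ≤ 2 * x := by
    have h1 : (1 : ℝ) ≤ x := by
      have : 1 ≤ x := by rw [hx]; exact Nat.le_floor (by exact_mod_cast hKt)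
      exact_mod_cast this
    have h2 := Nat.lt_floor_add_one ((K : ℝ) ^ (1 / 3 : ℝ))
    rw [← hx] at h2
    linarith
  have hx3 : (K : ℝ) ^ (1 / 3 - s) ≤ x := by
    rw [Real.rpow_sub hK0, div_le_iff₀ (by positivity)]
    nlinarith
  rw [← hx]
  have hmx : max (max (2 / 3) (υ * 1)) (max (2 * τ * 1 - (1 / 3 - s)) (1 - (1 / 3 - s))) ≤ E + s := by
    refine max_le (max_le (by linarith) (by linarith)) (max_le (by linarith) (by linarith))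
  refine le_trans (Nat.cast_le.2 (card_le_card ?_)) (h.trans
    (Real.rpow_le_rpow_of_exponent_le hK1r (by linarith)))
  intro k hk
  rw [mem_filter] at hk ⊢
  refine ⟨hk.1, x, hx3, hx1, ?_⟩
  obtain ⟨_, hk2⟩ := hk
  rw [density_eq] at hk2
  have hl := Pool.Agent.K3h21.MK.loc3_nonneg k x
  have hm := Pool.Agent.K3h21.MK.vals_mono r k x x ((K : ℝ) ^ ζ) ((K : ℝ) ^ wt) le_rfl
    (Real.rpow_le_rpow_of_exponent_le hK1r hwt)
  have hm' : ((Pool.Agent.K3h21.MK.vals r k x ((K : ℝ) ^ ζ)).card : ℝ) ≤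
      almostPrimes r k x ((K : ℝ) ^ wt) := by
    unfold almostPrimes
    unfold Pool.Agent.K3h21.MK.vals at hm
    unfold Pool.Agent.K3h21.MK.vals
    exact_mod_cast card_le_card hm
  refine lt_of_le_of_lt hm' (lt_of_lt_of_le hk2 ?_)
  apply mul_le_mul_of_nonneg_right _ hl
  nlinarith


theorem fac (k : ℤ) (p : ℕ) :
    0 ≤ 1 - (((range p).filter (fun m : ℕ => (p : ℤ) ∣ (m : ℤ) ^ 3 + k)).card : ℝ) / p ∧
    1 - (((range p).filter (fun m : ℕ => (p : ℤ) ∣ (m : ℤ) ^ 3 + k)).card : ℝ) / p ≤ 1 := by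
  have h1 : (((range p).filter (fun m : ℕ => (p : ℤ) ∣ (m : ℤ) ^ 3 + k)).card : ℝ) ≤ p := by
    have := card_filter_le (range p) (fun m : ℕ => (p : ℤ) ∣ (m : ℤ) ^ 3 + k)
    rw [card_range] at this
    exact_mod_cast this
  have h2 : (((range p).filter (fun m : ℕ => (p : ℤ) ∣ (m : ℤ) ^ 3 + k)).card : ℝ) / p ≤ 1 :=
    div_le_one_of_le₀ h1 (Nat.cast_nonneg _)
  have h3 : 0 ≤ (((range p).filter (fun m : ℕ => (p : ℤ) ∣ (m : ℤ) ^ 3 + k)).card : ℝ) / p := by positivity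
  constructor <;> linarith

theorem density_nonneg (k : ℤ) (x : ℕ) : 0 ≤ density k x :=
  prod_nonneg fun p _ => (fac k p).1

theorem density_anti (k : ℤ) {x y : ℕ} (h : x ≤ y) : density k y ≤ density k x := by
  unfold density
  have hsub : (Icc 1 x).filter Nat.Prime ⊆ (Icc 1 y).filter Nat.Prime :=
    filter_subset_filter _ (Icc_subset_Icc_right h)
  rw [← prod_sdiff hsub]
  have h1 := prod_le_one (s := (Icc 1 y).filter Nat.Prime \ (Icc 1 x).filter Nat.Prime)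
    (f := fun p : ℕ => 1 - (((range p).filter (fun m : ℕ => (p : ℤ) ∣ (m : ℤ) ^ 3 + k)).card : ℝ) / p)
    (fun p _ => (fac k p).1) (fun p _ => (fac k p).2)
  have h2 : 0 ≤ ∏ p ∈ (Icc 1 x).filter Nat.Prime,
      (1 - (((range p).filter (fun m : ℕ => (p : ℤ) ∣ (m : ℤ) ^ 3 + k)).card : ℝ) / p) :=
    prod_nonneg fun p _ => (fac k p).1
  calc _ ≤ 1 * _ := mul_le_mul_of_nonneg_right h1 h2
    _ = _ := one_mul _

open Classical in
theorem almostPrimes_mono (r : ℕ) (k : ℤ) {x y : ℕ} {v w : ℝ} (h : x ≤ y) (hw : v ≤ w) :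
    almostPrimes r k x w ≤ almostPrimes r k y v := by
  unfold almostPrimes
  apply card_le_card
  intro m hm
  rw [mem_filter, mem_Icc] at hm ⊢
  exact ⟨⟨hm.1.1, hm.1.2.trans h⟩, hm.2.1, hm.2.2.1, fun p hp hd => hw.trans (hm.2.2.2 p hp hd)⟩

/-- the least power of two which is at least `|k|` -/
def up (k : ℤ) : ℕ := 2 ^ Nat.clog 2 k.natAbs

theorem le_up (k : ℤ) : k.natAbs ≤ up k := Nat.le_pow_clog (by norm_num) _

theorem up_le {k : ℤ} (hk : k ≠ 0) : up k ≤ 2 * k.natAbs := by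
  unfold up
  rcases Nat.lt_or_ge 1 k.natAbs with h | h
  · have h1 := Nat.pow_pred_clog_lt_self (b := 2) (by norm_num) h
    have h2 : 0 < Nat.clog 2 k.natAbs := Nat.clog_pos (by norm_num) h
    obtain ⟨n, hn⟩ : ∃ n, Nat.clog 2 k.natAbs = n + 1 := ⟨Nat.clog 2 k.natAbs - 1, by omega⟩
    rw [hn] at h1 ⊢
    simp only [Nat.pred_succ] at h1
    rw [pow_succ]
    omega
  · have h1 : k.natAbs = 1 := by
      have := Int.natAbs_pos.2 hk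
      omega
    rw [h1]
    simp

/-- the sum over the powers of two -/
theorem dyadic (B : ℕ → Finset ℤ) (s A : ℝ) (hs : 0 ≤ s) (hA : 0 ≤ A)
    (h : ∀ i : ℕ, ((B (2 ^ i)).card : ℝ) ≤ A * ((2 ^ i : ℕ) : ℝ) ^ s) (ε : ℝ) (hε : 0 < ε) :
    ∃ C : ℝ, ∀ X : ℝ, 1 ≤ X →
      {k : ℤ | k ∈ {k : ℤ | k ≠ 0 ∧ k ∈ B (up k)} ∧ ((k.natAbs : ℕ) : ℝ) ≤ X}.Finite ∧
      ({k : ℤ | k ∈ {k : ℤ | k ≠ 0 ∧ k ∈ B (up k)} ∧ ((k.natAbs : ℕ) : ℝ) ≤ X}.ncard : ℝ) ≤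
        C * X ^ (s + ε) := by
  classical
  refine ⟨A * 2 ^ s * (2 + 1 / (ε * Real.log 2)), fun X hX => ?_⟩
  have hX0 : (0 : ℝ) < X := by linarith
  set M := ⌊X⌋₊ with hM
  have hM1 : 1 ≤ M := Nat.le_floor (by exact_mod_cast hX)
  set J := Nat.log 2 M + 2 with hJ
  have hcov : {k : ℤ | k ∈ {k : ℤ | k ≠ 0 ∧ k ∈ B (up k)} ∧ ((k.natAbs : ℕ) : ℝ) ≤ X} ⊆
      (((range J).biUnion fun i => if 2 ^ i ≤ 2 * M then B (2 ^ i) else ∅ : Finset ℤ) : Set ℤ) := by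
    rintro k ⟨⟨hk0, hk⟩, hkX⟩
    have h1 : k.natAbs ≤ M := Nat.le_floor hkX
    have h2 := up_le hk0
    have h3 : up k ≤ 2 * M := by omega
    rw [mem_coe, mem_biUnion]
    refine ⟨Nat.clog 2 k.natAbs, ?_, ?_⟩
    · rw [mem_range, hJ]
      have h4 : 2 ^ Nat.clog 2 k.natAbs ≤ 2 * M := h3
      rcases Nat.eq_zero_or_pos (Nat.clog 2 k.natAbs) with h5 | h5
      · omega
      · obtain ⟨n, hn⟩ : ∃ n, Nat.clog 2 k.natAbs = n + 1 := ⟨Nat.clog 2 k.natAbs - 1, by omega⟩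
        rw [hn] at h4 ⊢
        rw [pow_succ] at h4
        have h6 : 2 ^ n ≤ M := by omega
        have := (Nat.le_log_iff_pow_le (by norm_num) (by omega)).2 h6
        omega
    · rw [if_pos (show 2 ^ Nat.clog 2 k.natAbs ≤ 2 * M from h3)]
      exact hk
  have hfin := (finite_toSet ((range J).biUnion fun i => if 2 ^ i ≤ 2 * M then B (2 ^ i) else ∅)).subset hcov
  refine ⟨hfin, ?_⟩
  have hMX : (M : ℝ) ≤ X := Nat.floor_le hX0.le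
  have hone : ∀ i ∈ range J, (((if 2 ^ i ≤ 2 * M then B (2 ^ i) else ∅ : Finset ℤ)).card : ℝ) ≤
      A * (2 ^ s * X ^ s) := by
    intro i _
    split_ifs with h1
    · refine (h i).trans (mul_le_mul_of_nonneg_left ?_ hA)
      rw [← Real.mul_rpow (by norm_num) hX0.le]
      apply Real.rpow_le_rpow (by positivity) _ hs
      have : ((2 ^ i : ℕ) : ℝ) ≤ 2 * M := by exact_mod_cast h1
      linarith
    · rw [card_empty, Nat.cast_zero]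
      positivity
  have hJb : (J : ℝ) ≤ (2 + 1 / (ε * Real.log 2)) * X ^ ε := by
    have hl2 : 0 < Real.log 2 := Real.log_pos (by norm_num)
    have hM0 : (0 : ℝ) < M := by exact_mod_cast hM1
    have h1 : ((Nat.log 2 M : ℕ) : ℝ) * Real.log 2 ≤ Real.log X := by
      rw [← Real.log_pow]
      apply Real.log_le_log (by positivity)
      have h2 := Nat.pow_log_le_self 2 (show M ≠ 0 by omega)
      have h3 : ((2 : ℝ)) ^ Nat.log 2 M ≤ M := by exact_mod_cast h2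
      linarith
    have h2 : Real.log X ≤ X ^ ε / ε := Real.log_le_rpow_div hX0.le hε
    have h3 : (1 : ℝ) ≤ X ^ ε := Real.one_le_rpow hX hε.le
    have h4 : ((Nat.log 2 M : ℕ) : ℝ) ≤ 1 / (ε * Real.log 2) * X ^ ε := by
      calc ((Nat.log 2 M : ℕ) : ℝ) = ((Nat.log 2 M : ℕ) : ℝ) * Real.log 2 / Real.log 2 := by
            field_simp
        _ ≤ (X ^ ε / ε) / Real.log 2 := by gcongr; exact h1.trans h2
        _ = 1 / (ε * Real.log 2) * X ^ ε := by field_simp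
    rw [hJ]
    push_cast
    linarith
  calc ({k : ℤ | k ∈ {k : ℤ | k ≠ 0 ∧ k ∈ B (up k)} ∧ ((k.natAbs : ℕ) : ℝ) ≤ X}.ncard : ℝ)
      ≤ (((range J).biUnion fun i => if 2 ^ i ≤ 2 * M then B (2 ^ i) else ∅).card : ℝ) := by
        have := Set.ncard_le_ncard hcov (finite_toSet _)
        rw [Set.ncard_coe_finset] at this
        exact_mod_cast this
    _ ≤ ∑ i ∈ range J, ((if 2 ^ i ≤ 2 * M then B (2 ^ i) else ∅ : Finset ℤ).card : ℝ) := by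
        exact_mod_cast card_biUnion_le
    _ ≤ ∑ i ∈ range J, A * (2 ^ s * X ^ s) := sum_le_sum hone
    _ = J * (A * (2 ^ s * X ^ s)) := by
        rw [sum_const, card_range, nsmul_eq_mul]
    _ ≤ ((2 + 1 / (ε * Real.log 2)) * X ^ ε) * (A * (2 ^ s * X ^ s)) := by
        gcongr
    _ = A * 2 ^ s * (2 + 1 / (ε * Real.log 2)) * X ^ (s + ε) := by
        rw [Real.rpow_add hX0]
        ring

open Classical in
/-- one value of `ε` -/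
theorem starOne (r : ℕ) (w s ε : ℝ) (hw : 0 ≤ w) (hs : 0 ≤ s) (hε : 0 < ε)
    (H : ∃ δ : ℝ, 0 < δ ∧ ∃ K0 : ℕ, ∀ K : ℕ, K0 ≤ K →
      (((Icc (-(K : ℤ)) (K : ℤ)).filter (fun k =>
        (almostPrimes r k ⌊(K : ℝ) ^ (1 / 3 : ℝ)⌋₊ ((K : ℝ) ^ w) : ℝ) <
          δ * (K : ℝ) ^ (1 / 3 : ℝ) * density k ⌊(K : ℝ) ^ (1 / 3 : ℝ)⌋₊)).card : ℝ) ≤ (K : ℝ) ^ (s + ε))
    {a τ θ : ℝ} {g : ℕ → ℝ → ℝ} (hS : Starshaped a g) (hτ : 0 ≤ τ) (hc : Conv a g τ) (hθ : θ < 1) :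
    ∃ E : Set ℝ, dimH E ≤ ENNReal.ofReal ((s + ε + τ) / (1 - θ)) ∧
      ∀ α : ℝ, a < α → α ∉ E → ∃ δ : ℝ, 0 < δ ∧ ∀ C : ℝ, ∃ j₀ : ℕ, ∀ j : ℕ, j₀ ≤ j → ∀ k : ℤ, k ≠ 0 →
        |((k.natAbs : ℕ) : ℝ) - g j α| ≤ C * (g j α) ^ θ →
          δ * (k.natAbs : ℝ) ^ (1 / 3 : ℝ) * density k ⌊(2 * (k.natAbs : ℝ)) ^ (1 / 3 : ℝ)⌋₊ ≤
            almostPrimes r k ⌊(2 * (k.natAbs : ℝ)) ^ (1 / 3 : ℝ)⌋₊ ((k.natAbs : ℝ) ^ w) := by
  obtain ⟨δ, hδ, K0, H⟩ := H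
  set B : ℕ → Finset ℤ := fun K => (Icc (-(K : ℤ)) (K : ℤ)).filter (fun k =>
        (almostPrimes r k ⌊(K : ℝ) ^ (1 / 3 : ℝ)⌋₊ ((K : ℝ) ^ w) : ℝ) <
          δ * (K : ℝ) ^ (1 / 3 : ℝ) * density k ⌊(K : ℝ) ^ (1 / 3 : ℝ)⌋₊) with hB
  have hcard : ∀ i : ℕ, ((B (2 ^ i)).card : ℝ) ≤ (3 * K0 + 1) * ((2 ^ i : ℕ) : ℝ) ^ (s + ε) := by
    intro i
    have h2 : (1 : ℝ) ≤ ((2 ^ i : ℕ) : ℝ) := by exact_mod_cast Nat.one_le_two_pow
    have h1 : (1 : ℝ) ≤ ((2 ^ i : ℕ) : ℝ) ^ (s + ε) := Real.one_le_rpow h2 (by linarith)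
    have h0 : (0 : ℝ) ≤ K0 := Nat.cast_nonneg _
    rcases Nat.lt_or_ge (2 ^ i) K0 with h | h
    · have h3 : (B (2 ^ i)).card ≤ 3 * K0 := by
        have h4 := card_filter_le (Icc (-((2 ^ i : ℕ) : ℤ)) ((2 ^ i : ℕ) : ℤ)) (fun k =>
          (almostPrimes r k ⌊((2 ^ i : ℕ) : ℝ) ^ (1 / 3 : ℝ)⌋₊ (((2 ^ i : ℕ) : ℝ) ^ w) : ℝ) <
          δ * ((2 ^ i : ℕ) : ℝ) ^ (1 / 3 : ℝ) * density k ⌊((2 ^ i : ℕ) : ℝ) ^ (1 / 3 : ℝ)⌋₊)
        rw [Int.card_Icc] at h4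
        have h5 : 1 ≤ 2 ^ i := Nat.one_le_two_pow
        have h6 : (B (2 ^ i)).card ≤ (((2 ^ i : ℕ) : ℤ) + 1 - -((2 ^ i : ℕ) : ℤ)).toNat := h4
        omega
      have h3' : ((B (2 ^ i)).card : ℝ) ≤ 3 * K0 := by exact_mod_cast h3
      nlinarith
    · have h3 := H (2 ^ i) h
      have h4 : ((B (2 ^ i)).card : ℝ) ≤ ((2 ^ i : ℕ) : ℝ) ^ (s + ε) := h3
      nlinarith
  obtain ⟨E, hE, h⟩ := windows {k : ℤ | k ≠ 0 ∧ k ∈ B (up k)} (fun k => ((k.natAbs : ℕ) : ℝ)) hS hτ hc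
    (s := s + ε) (by linarith) hθ
    (fun ε' hε' => dyadic B (s + ε) (3 * K0 + 1) (by linarith) (by positivity) hcard ε' hε')
  refine ⟨E, hE, fun α hα hαE => ⟨δ, hδ, fun C => ?_⟩⟩
  obtain ⟨j₀, hj⟩ := h α hα hαE C
  refine ⟨j₀, fun j hj' k hk hd => ?_⟩
  have hk1 : 1 ≤ k.natAbs := Int.natAbs_pos.2 hk
  have hkr : (1 : ℝ) ≤ (k.natAbs : ℝ) := by exact_mod_cast hk1
  have hnot : k ∉ B (up k) := by
    intro hkB
    have := hj j hj' k ⟨hk, hkB⟩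
    linarith
  have hup1 : (k.natAbs : ℝ) ≤ up k := by exact_mod_cast le_up k
  have hup2 : (up k : ℝ) ≤ 2 * (k.natAbs : ℝ) := by exact_mod_cast up_le hk
  have hup0 : (0 : ℝ) < up k := by linarith
  have hfl : ⌊(up k : ℝ) ^ (1 / 3 : ℝ)⌋₊ ≤ ⌊(2 * (k.natAbs : ℝ)) ^ (1 / 3 : ℝ)⌋₊ :=
    Nat.floor_mono (Real.rpow_le_rpow hup0.le hup2 (by norm_num))
  have h1 : δ * (up k : ℝ) ^ (1 / 3 : ℝ) * density k ⌊(up k : ℝ) ^ (1 / 3 : ℝ)⌋₊ ≤
      (almostPrimes r k ⌊(up k : ℝ) ^ (1 / 3 : ℝ)⌋₊ ((up k : ℝ) ^ w) : ℝ) := by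
    by_contra hcon
    push Not at hcon
    apply hnot
    rw [hB, mem_filter, mem_Icc]
    refine ⟨⟨?_, ?_⟩, hcon⟩
    · have := le_up k
      omega
    · have := le_up k
      omega
  have h2 : almostPrimes r k ⌊(up k : ℝ) ^ (1 / 3 : ℝ)⌋₊ ((up k : ℝ) ^ w) ≤
      almostPrimes r k ⌊(2 * (k.natAbs : ℝ)) ^ (1 / 3 : ℝ)⌋₊ ((k.natAbs : ℝ) ^ w) :=
    almostPrimes_mono r k hfl (Real.rpow_le_rpow (by linarith) hup1 hw)
  have h3 : density k ⌊(2 * (k.natAbs : ℝ)) ^ (1 / 3 : ℝ)⌋₊ ≤ density k ⌊(up k : ℝ) ^ (1 / 3 : ℝ)⌋₊ :=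
    density_anti k hfl
  have h4 : (k.natAbs : ℝ) ^ (1 / 3 : ℝ) ≤ (up k : ℝ) ^ (1 / 3 : ℝ) :=
    Real.rpow_le_rpow (by linarith) hup1 (by norm_num)
  have h5 : δ * (k.natAbs : ℝ) ^ (1 / 3 : ℝ) * density k ⌊(2 * (k.natAbs : ℝ)) ^ (1 / 3 : ℝ)⌋₊ ≤
      δ * (up k : ℝ) ^ (1 / 3 : ℝ) * density k ⌊(up k : ℝ) ^ (1 / 3 : ℝ)⌋₊ := by
    apply mul_le_mul (mul_le_mul_of_nonneg_left h4 hδ.le) h3 (density_nonneg _ _) (by positivity)
  have h2' : (almostPrimes r k ⌊(up k : ℝ) ^ (1 / 3 : ℝ)⌋₊ ((up k : ℝ) ^ w) : ℝ) ≤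
      almostPrimes r k ⌊(2 * (k.natAbs : ℝ)) ^ (1 / 3 : ℝ)⌋₊ ((k.natAbs : ℝ) ^ w) := by exact_mod_cast h2
  exact h5.trans (h1.trans h2')

/-- **Almost primes `m³ + k` for all integers `k` near powers, orbits and other sequences.** Let `(r, s, w)` be
`(2, 25/33, 1/8)` or `(3, 2/3, 1/12)` and let the functions `g j > 0` on `(a, ∞)` be such that `g j t / t` is
nondecreasing and `∑ (g j t) ^ (-x)` converges for `t > a`, `x > τ`. For all `α > a` outside a set of Hausdorff dimension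
at most `(s + τ) / (1 - θ)` there is `δ > 0` such that for each `C` and all but finitely many `j`, for EVERY integer
`k ≠ 0` with `||k| - g j α| ≤ C (g j α) ^ θ` at least `δ |k| ^ (1/3) D` of the `m ≤ (2 |k|) ^ (1/3)` are such that
`|m³ + k| ≥ 2` has at most `r` prime factors, all of them at least `|k| ^ w`; here `D` is the product of `1 - ρ(p) / p`
over the primes `p ≤ (2 |k|) ^ (1/3)`. -/
theorem result {a τ θ : ℝ} {g : ℕ → ℝ → ℝ} (ha : 0 ≤ a)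
    (hg : ∀ j : ℕ, ∀ x y : ℝ, a < x → x ≤ y → 0 < g j x ∧ g j x / x ≤ g j y / y)
    (hτ : 0 ≤ τ) (hc : ∀ t : ℝ, a < t → ∀ x : ℝ, τ < x → Summable (fun j : ℕ => (g j t) ^ (-x)))
    (hθ : θ < 1) (r : ℕ) (s w : ℝ) (hr : (r = 2 ∧ s = 25 / 33 ∧ w = 1 / 8) ∨ (r = 3 ∧ s = 2 / 3 ∧ w = 1 / 12)) :
    ∃ E : Set ℝ, dimH E ≤ ENNReal.ofReal ((s + τ) / (1 - θ)) ∧
      ∀ α : ℝ, a < α → α ∉ E → ∃ δ : ℝ, 0 < δ ∧ ∀ C : ℝ, ∃ j₀ : ℕ, ∀ j : ℕ, j₀ ≤ j → ∀ k : ℤ, k ≠ 0 →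
        |(k.natAbs : ℝ) - g j α| ≤ C * (g j α) ^ θ →
          δ * (k.natAbs : ℝ) ^ (1 / 3 : ℝ) * density k ⌊(2 * (k.natAbs : ℝ)) ^ (1 / 3 : ℝ)⌋₊ ≤
            almostPrimes r k ⌊(2 * (k.natAbs : ℝ)) ^ (1 / 3 : ℝ)⌋₊ ((k.natAbs : ℝ) ^ w) := by
  classical
  have cC := Pool.Agent.Y882.KW.cond_C (6 / 11) (80 / 77) (by norm_num) (by norm_num) (by norm_num)
  have cA := Pool.Agent.Y882.KW.cond_A (25 / 69) (8 / 9) (by norm_num) (by norm_num) (by norm_num)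
  have hS : Starshaped a g := ⟨ha, hg⟩
  have hs0 : 0 ≤ s := by
    rcases hr with ⟨-, h, -⟩ | ⟨-, h, -⟩ <;> rw [h] <;> norm_num
  have hw0 : 0 ≤ w := by
    rcases hr with ⟨-, -, h⟩ | ⟨-, -, h⟩ <;> rw [h] <;> norm_num
  have hcount : ∀ ε : ℝ, 0 < ε → ∃ δ : ℝ, 0 < δ ∧ ∃ K0 : ℕ, ∀ K : ℕ, K0 ≤ K →
      (((Icc (-(K : ℤ)) (K : ℤ)).filter (fun k =>
        (almostPrimes r k ⌊(K : ℝ) ^ (1 / 3 : ℝ)⌋₊ ((K : ℝ) ^ w) : ℝ) <
          δ * (K : ℝ) ^ (1 / 3 : ℝ) * density k ⌊(K : ℝ) ^ (1 / 3 : ℝ)⌋₊)).card : ℝ) ≤ (K : ℝ) ^ (s + ε) := by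
    intro ε hε
    rcases hr with ⟨rfl, rfl, rfl⟩ | ⟨rfl, rfl, rfl⟩
    · exact one_scale 2 (6 / 11) (6 / 11 / 4) (9 / 10 * (6 / 11)) (80 / 77) (by norm_num) (by norm_num)
        (by norm_num)
        (by norm_num) (by norm_num) (by norm_num) (by norm_num) (by norm_num) cC (by norm_num) (1 / 8)
        (by norm_num) (25 / 33) (by norm_num) (by norm_num) ε hε
    · exact one_scale 3 (25 / 69) (25 / 69 / 4) (24 / 25 * (25 / 69)) (8 / 9) (by norm_num) (by norm_num)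
        (by norm_num)
        (by norm_num) (by norm_num) (by norm_num) (by norm_num) (by norm_num) cA (by norm_num) (1 / 12)
        (by norm_num) (2 / 3) (by norm_num) (by norm_num) ε hε
  have key : ∀ n : ℕ, ∃ E : Set ℝ, dimH E ≤ ENNReal.ofReal ((s + 1 / ((n : ℝ) + 1) + τ) / (1 - θ)) ∧
      ∀ α : ℝ, a < α → α ∉ E → ∃ δ : ℝ, 0 < δ ∧ ∀ C : ℝ, ∃ j₀ : ℕ, ∀ j : ℕ, j₀ ≤ j → ∀ k : ℤ, k ≠ 0 →
        |((k.natAbs : ℕ) : ℝ) - g j α| ≤ C * (g j α) ^ θ →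
          δ * (k.natAbs : ℝ) ^ (1 / 3 : ℝ) * density k ⌊(2 * (k.natAbs : ℝ)) ^ (1 / 3 : ℝ)⌋₊ ≤
            almostPrimes r k ⌊(2 * (k.natAbs : ℝ)) ^ (1 / 3 : ℝ)⌋₊ ((k.natAbs : ℝ) ^ w) := fun n =>
    starOne r w s (1 / ((n : ℝ) + 1)) hw0 hs0 (by positivity) (hcount _ (by positivity)) hS hτ hc hθ
  choose E hE H using key
  refine ⟨⋂ n : ℕ, E n, ?_, fun α hα hαE => ?_⟩
  · have h1 : ∀ n : ℕ, dimH (⋂ n : ℕ, E n) ≤ ENNReal.ofReal ((s + 1 / ((n : ℝ) + 1) + τ) / (1 - θ)) :=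
      fun n => (dimH_mono (Set.iInter_subset _ n)).trans (hE n)
    have h2 : Tendsto (fun n : ℕ => ENNReal.ofReal ((s + 1 / ((n : ℝ) + 1) + τ) / (1 - θ)))
        atTop (nhds (ENNReal.ofReal ((s + 0 + τ) / (1 - θ)))) := by
      refine ENNReal.tendsto_ofReal (Tendsto.div_const ?_ _)
      exact (tendsto_const_nhds.add tendsto_one_div_add_atTop_nhds_zero_nat).add_const _
    rw [add_zero] at h2
    exact ge_of_tendsto' h2 h1
  · rw [Set.mem_iInter, not_forall] at hαE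
    obtain ⟨n, hn⟩ := hαE
    exact H n α hα hn

end Pool.Agent.Results.MP_4d57ea_nt.StarshapedValuesOfK
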